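import Pool.Agent.Work.MP_dcf6a6_tv.Interface

/-! Block SQF: squarefree polynomials on a general curve. -/

namespace Pool.TVar.helper30

open Polynomial

namespace SQF

variable {K : Type}

/-- translation and scaling -/
lemma squarefree_affine {t : ℂ} (ht : t ≠ 0) (b : K → ℂ) {H : MvPolynomial K ℂ}
    (hH : Squarefree H) :
    Squarefree (MvPolynomial.aeval
      (fun k => MvPolynomial.C t * MvPolynomial.X k + MvPolynomial.C (b k) :
        K → MvPolynomial K ℂ) H) := by
  intro y hy
  obtain ⟨θ, hθ⟩ : ∃ θ : MvPolynomial K ℂ →ₐ[ℂ] MvPolynomial K ℂ, θ = MvPolynomial.aeval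
      (fun k => MvPolynomial.C t⁻¹ * (MvPolynomial.X k - MvPolynomial.C (b k)) :
        K → MvPolynomial K ℂ) := ⟨_, rfl⟩
  obtain ⟨η, hη⟩ : ∃ η : MvPolynomial K ℂ →ₐ[ℂ] MvPolynomial K ℂ, η = MvPolynomial.aeval
      (fun k => MvPolynomial.C t * MvPolynomial.X k + MvPolynomial.C (b k) :
        K → MvPolynomial K ℂ) := ⟨_, rfl⟩
  have h1 : ∀ p, θ (η p) = p := by
    have : θ.comp η = AlgHom.id ℂ _ := by
      apply MvPolynomial.algHom_ext
      intro k
      simp only [hθ, hη, AlgHom.comp_apply, MvPolynomial.aeval_X, map_add, map_mul,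
        MvPolynomial.aeval_C, AlgHom.id_apply]
      rw [MvPolynomial.algebraMap_eq, ← mul_assoc, ← MvPolynomial.C_mul, mul_inv_cancel₀ ht,
        MvPolynomial.C_1, one_mul, sub_add_cancel]
    intro p
    exact DFunLike.congr_fun this p
  have h2 : ∀ p, η (θ p) = p := by
    have : η.comp θ = AlgHom.id ℂ _ := by
      apply MvPolynomial.algHom_ext
      intro k
      simp only [hθ, hη, AlgHom.comp_apply, MvPolynomial.aeval_X, map_add, map_mul, map_sub,
        MvPolynomial.aeval_C, AlgHom.id_apply]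
      rw [MvPolynomial.algebraMap_eq, add_sub_cancel_right, ← mul_assoc, ← MvPolynomial.C_mul,
        inv_mul_cancel₀ ht, MvPolynomial.C_1, one_mul]
    intro p
    exact DFunLike.congr_fun this p
  rw [← hη] at hy
  have h3 := map_dvd θ hy
  rw [h1, map_mul] at h3
  have h4 := (hH _ h3).map η
  rwa [h2] at h4

end SQF

open SQF in
theorem stmt_SQF (hD : Stmt_DEG) : Stmt_SQF := by
  classical
  intro K _ u H δ N z0 z1 hu hN hH hsq h0 h1
  obtain ⟨z, hz⟩ : ∃ z : K → Polynomial (MvPolynomial K ℂ), z = fun k =>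
      C (MvPolynomial.C (z1 k)) * X ^ (N * u k) + C (MvPolynomial.X k) * X +
        C (MvPolynomial.C (z0 k)) := ⟨_, rfl⟩
  have hNu : ∀ k, 2 ≤ N * u k := by
    intro k
    calc 2 ≤ N := hN
      _ ≤ N * u k := Nat.le_mul_of_pos_right _ (hu k)
  have hdeg : ∀ k, (z k).natDegree ≤ N * u k := by
    intro k
    have := hNu k
    rw [hz]
    refine natDegree_add_le_of_degree_le (natDegree_add_le_of_degree_le ?_ ?_) ?_
    · exact natDegree_C_mul_X_pow_le _ _
    · refine (natDegree_C_mul_le _ _).trans ?_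
      rw [natDegree_X]; omega
    · rw [natDegree_C]; omega
  obtain ⟨d1, d2, d3⟩ := hD u H δ N z hH hdeg
  have hc1 : ∀ k, (z k).coeff (N * u k) = MvPolynomial.C (z1 k) := by
    intro k
    have h2 := hNu k
    have h3 : N * u k ≠ 1 := by omega
    have h4 : N * u k ≠ 0 := by omega
    rw [hz]
    simp only [coeff_add, coeff_C_mul, coeff_X_pow, if_true, mul_one, coeff_X, coeff_C]
    rw [if_neg h3.symm, if_neg h4, mul_zero, add_zero, add_zero]
  have hc0 : ∀ k, (z k).coeff 0 = MvPolynomial.C (z0 k) := by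
    intro k
    have h2 := hNu k
    have h4 : 0 ≠ N * u k := by omega
    rw [hz]
    simp only [coeff_add, coeff_C_mul, coeff_X_pow, if_neg h4, mul_zero, coeff_X_zero,
      coeff_C_zero, zero_add]
  simp only [hc1] at d2
  simp only [hc0] at d3
  have hC : ∀ w : K → ℂ, MvPolynomial.aeval (fun k => (MvPolynomial.C (w k) :
      MvPolynomial K ℂ)) H = MvPolynomial.C (MvPolynomial.eval w H) := by
    intro w
    have : (MvPolynomial.aeval (fun k => (MvPolynomial.C (w k) : MvPolynomial K ℂ))) =
        (Algebra.ofId ℂ (MvPolynomial K ℂ)).comp (MvPolynomial.aeval w) := by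
      apply MvPolynomial.algHom_ext
      intro k
      simp only [AlgHom.comp_apply, MvPolynomial.aeval_X, Algebra.ofId_apply,
        MvPolynomial.algebraMap_eq]
    rw [this, AlgHom.comp_apply, MvPolynomial.aeval_eq_eval, Algebra.ofId_apply,
      MvPolynomial.algebraMap_eq]
  rw [hC] at d2 d3
  obtain ⟨Φ, hΦ⟩ : ∃ Φ, Φ = MvPolynomial.aeval z H := ⟨_, rfl⟩
  rw [← hΦ] at d1 d2 d3
  -- all the specialisations `s = t` are squarefree
  have hspec : ∀ t : ℂ, Squarefree (Φ.eval (MvPolynomial.C t)) := by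
    intro t
    have h2 : Φ.eval (MvPolynomial.C t) = MvPolynomial.aeval
        (fun k => (z k).eval (MvPolynomial.C t)) H := by
      have : (Polynomial.evalRingHom (MvPolynomial.C t : MvPolynomial K ℂ)).comp
          (MvPolynomial.aeval z : MvPolynomial K ℂ →ₐ[ℂ] _).toRingHom =
          (MvPolynomial.aeval (fun k => (z k).eval (MvPolynomial.C t)) :
            MvPolynomial K ℂ →ₐ[ℂ] _).toRingHom := by
        apply MvPolynomial.ringHom_ext
        · intro a
          simp
        · intro k
          simp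
      have h3 := DFunLike.congr_fun this H
      rw [hΦ]
      exact h3
    rw [h2]
    by_cases ht : t = 0
    · subst ht
      have h3 : ∀ k, (z k).eval (MvPolynomial.C 0) = MvPolynomial.C (z0 k) := by
        intro k
        rw [MvPolynomial.C_0, ← coeff_zero_eq_eval_zero, hc0]
      simp only [h3]
      rw [hC]
      exact ((isUnit_iff_ne_zero.mpr h0).map MvPolynomial.C).squarefree
    · have h3 : ∀ k, (z k).eval (MvPolynomial.C t) = MvPolynomial.C t * MvPolynomial.X k +
          MvPolynomial.C (z1 k * t ^ (N * u k) + z0 k) := by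
        intro k
        rw [hz]
        simp only [eval_add, eval_mul, eval_C, eval_pow, eval_X, MvPolynomial.C_add,
          MvPolynomial.C_mul, MvPolynomial.C_pow]
        ring
      simp only [h3]
      exact squarefree_affine ht _ hsq
  -- the monic version
  obtain ⟨e, he⟩ : ∃ e : ℂ, e = (MvPolynomial.eval z1 H)⁻¹ := ⟨_, rfl⟩
  have he0 : e ≠ 0 := by rw [he]; exact inv_ne_zero h1
  have heu : IsUnit (MvPolynomial.C e : MvPolynomial K ℂ) :=
    (isUnit_iff_ne_zero.mpr he0).map MvPolynomial.C
  obtain ⟨Ψ, hΨ⟩ : ∃ Ψ, Ψ = C (MvPolynomial.C e) * Φ := ⟨_, rfl⟩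
  have hΨm : Ψ.Monic := by
    apply monic_of_natDegree_le_of_coeff_eq_one (N * δ)
    · rw [hΨ]; exact (natDegree_C_mul_le _ _).trans d1
    · rw [hΨ, coeff_C_mul, d2, ← MvPolynomial.C_mul, he, inv_mul_cancel₀ h1, MvPolynomial.C_1]
  have hspec' : ∀ t : ℂ, Squarefree (Ψ.eval (MvPolynomial.C t)) := by
    intro t
    rw [hΨ, eval_mul, eval_C]
    intro y hy
    exact hspec t y ((IsUnit.dvd_mul_left heu).mp hy)
  obtain ⟨F, hFi, hFa, hFf⟩ : ∃ (F : Type) (_ : Field F) (_ : Algebra (MvPolynomial K ℂ) F),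
      IsFractionRing (MvPolynomial K ℂ) F :=
    ⟨FractionRing (MvPolynomial K ℂ), inferInstance, inferInstance, inferInstance⟩
  have hinj : Function.Injective (algebraMap (MvPolynomial K ℂ) F) :=
    IsFractionRing.injective _ _
  have hchar : CharZero F := charZero_of_injective_algebraMap hinj
  -- squarefree over the fraction field
  have hsqF : Squarefree (Ψ.map (algebraMap (MvPolynomial K ℂ) F)) := by
    intro q hq
    by_contra hqu
    have hΨ0 : Ψ.map (algebraMap (MvPolynomial K ℂ) F) ≠ 0 := (hΨm.map _).ne_zero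
    have hq0 : q ≠ 0 := by
      rintro rfl
      rw [zero_mul, zero_dvd_iff] at hq
      exact hΨ0 hq
    obtain ⟨Q, hQ⟩ := IsIntegrallyClosed.eq_map_mul_C_of_dvd F hΨm
      ((dvd_mul_right q q).trans hq)
    have hlc : q.leadingCoeff ≠ 0 := leadingCoeff_ne_zero.mpr hq0
    have hQmap : (Q.map (algebraMap (MvPolynomial K ℂ) F)).leadingCoeff = 1 := by
      have h2 := congrArg leadingCoeff hQ
      rw [leadingCoeff_mul, leadingCoeff_C] at h2
      exact mul_right_cancel₀ hlc (h2.trans (one_mul _).symm)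
    have hQm : Q.Monic := by
      have h2 : (Q.map (algebraMap (MvPolynomial K ℂ) F)).Monic := hQmap
      exact monic_of_injective hinj h2
    have hQQ : Q * Q ∣ Ψ := by
      rw [← map_dvd_map (algebraMap (MvPolynomial K ℂ) F) hinj (hQm.mul hQm),
        Polynomial.map_mul]
      refine Dvd.dvd.trans ?_ hq
      have h2 : Q.map (algebraMap (MvPolynomial K ℂ) F) ∣ q := ⟨_, hQ.symm⟩
      exact mul_dvd_mul h2 h2
    have hQu : ∀ t : ℂ, IsUnit (Q.eval (MvPolynomial.C t)) := by
      intro t
      apply hspec' t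
      rw [← eval_mul]
      exact eval_dvd hQQ
    -- specialise the variables at zero
    obtain ⟨q0, hq0d⟩ : ∃ q0, q0 = Q.map (MvPolynomial.eval (0 : K → ℂ)) := ⟨_, rfl⟩
    have hq0m : q0.Monic := by rw [hq0d]; exact hQm.map _
    have hdeg0 : q0.natDegree = q.natDegree := by
      rw [hq0d, hQm.natDegree_map]
      rw [← hQ, natDegree_mul_C hlc, natDegree_map_eq_of_injective hinj]
    have hqdeg : q.natDegree ≠ 0 := by
      intro h2
      apply hqu
      rw [natDegree_eq_zero] at h2
      obtain ⟨x, hx⟩ := h2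
      rw [← hx] at hq0 ⊢
      have : x ≠ 0 := by rintro rfl; exact hq0 C_0
      exact (isUnit_iff_ne_zero.mpr this).map C
    obtain ⟨t, ht⟩ := IsAlgClosed.exists_root q0 (by
      intro h2
      apply hqdeg
      rw [← hdeg0]
      exact natDegree_eq_zero_iff_degree_le_zero.mpr h2.le)
    have h3 : q0.eval t = MvPolynomial.eval (0 : K → ℂ) (Q.eval (MvPolynomial.C t)) := by
      rw [hq0d, eval_map, ← eval₂_hom, MvPolynomial.eval_C]
    have h4 := (hQu t).map (MvPolynomial.eval (0 : K → ℂ))
    rw [← h3, ht] at h4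
    exact not_isUnit_zero h4
  -- separable, clear denominators
  have hsep := PerfectField.separable_iff_squarefree.mpr hsqF
  obtain ⟨a, b, hab⟩ := hsep
  obtain ⟨ra, hram, hra⟩ := IsLocalization.integerNormalization_spec
    (nonZeroDivisors (MvPolynomial K ℂ)) a
  obtain ⟨rb, hrbm, hrb⟩ := IsLocalization.integerNormalization_spec
    (nonZeroDivisors (MvPolynomial K ℂ)) b
  generalize IsLocalization.integerNormalization (nonZeroDivisors (MvPolynomial K ℂ)) a = A at hra
  generalize IsLocalization.integerNormalization (nonZeroDivisors (MvPolynomial K ℂ)) b = B at hrb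
  have hs : ∀ (r : MvPolynomial K ℂ) (p : Polynomial F),
      r • p = C (algebraMap (MvPolynomial K ℂ) F r) * p := by
    intro r p
    rw [← smul_eq_C_mul, algebraMap_smul]
  rw [hs] at hra hrb
  have hAB : C rb * A * Ψ + C ra * B * derivative Ψ = C (ra * rb) := by
    apply map_injective _ hinj
    rw [Polynomial.map_add, Polynomial.map_mul, Polynomial.map_mul, Polynomial.map_mul,
      Polynomial.map_mul, map_C, map_C, map_C, hra, hrb, ← derivative_map, map_mul, C_mul]
    linear_combination (C (algebraMap (MvPolynomial K ℂ) F ra) *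
      C (algebraMap (MvPolynomial K ℂ) F rb)) * hab
  have hr0 : ra * rb ≠ 0 := mul_ne_zero (nonZeroDivisors.ne_zero hram) (nonZeroDivisors.ne_zero hrbm)
  obtain ⟨c, hc⟩ : ∃ c : K → ℂ, MvPolynomial.eval c (ra * rb) ≠ 0 := by
    by_contra hcon
    push Not at hcon
    apply hr0
    apply MvPolynomial.funext
    intro x
    rw [hcon x, map_zero]
  refine ⟨c, ?_⟩
  have h5 := congrArg (Polynomial.map (MvPolynomial.eval c)) hAB
  rw [Polynomial.map_add, Polynomial.map_mul _ (p := C rb * A), Polynomial.map_mul _ (p := C ra * B),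
    ← derivative_map, map_C] at h5
  obtain ⟨ψ, hψ⟩ : ∃ ψ, ψ = Ψ.map (MvPolynomial.eval c) := ⟨_, rfl⟩
  rw [← hψ] at h5
  have h6 : ψ.Separable := by
    refine ⟨C (MvPolynomial.eval c (ra * rb))⁻¹ * (C rb * A).map (MvPolynomial.eval c),
      C (MvPolynomial.eval c (ra * rb))⁻¹ * (C ra * B).map (MvPolynomial.eval c), ?_⟩
    rw [mul_assoc, mul_assoc, ← mul_add, h5, ← C_mul, inv_mul_cancel₀ hc, C_1]
  have h7 : ψ = C e * MvPolynomial.aeval
      (fun k => C (z1 k) * X ^ (N * u k) + C (c k) * X + C (z0 k)) H := by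
    rw [hψ, hΨ, Polynomial.map_mul, map_C, MvPolynomial.eval_C]
    congr 1
    have : (Polynomial.mapRingHom (MvPolynomial.eval c)).comp
        (MvPolynomial.aeval z : MvPolynomial K ℂ →ₐ[ℂ] _).toRingHom =
        (MvPolynomial.aeval
          (fun k => C (z1 k) * X ^ (N * u k) + C (c k) * X + C (z0 k)) :
          MvPolynomial K ℂ →ₐ[ℂ] _).toRingHom := by
      apply MvPolynomial.ringHom_ext
      · intro a
        simp
      · intro k
        simp [hz]
    have h8 := DFunLike.congr_fun this H
    rw [hΦ]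
    exact h8
  have h9 := h6.squarefree
  rw [h7] at h9
  exact h9.of_mul_right

end Pool.TVar.helper30
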