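import Pool.Agent.Work.MP_dcf6a6_tv.Interface

/-! Block CORE: the polynomial solution. -/

namespace Pool.TVar.helper30

open Polynomial

namespace CORE

lemma coprime_iff (f g : ℂ[X]) : IsCoprime f g ↔ ∀ t : ℂ, f.eval t = 0 → g.eval t ≠ 0 := by
  rw [isCoprime_iff_aeval_ne_zero_of_isAlgClosed ℂ ℂ f g]
  constructor
  · intro h t ht
    rcases h t with h | h
    · rw [coe_aeval_eq_eval] at h; exact absurd ht h
    · rwa [coe_aeval_eq_eval] at h
  · intro h t
    rw [coe_aeval_eq_eval]
    by_cases ht : f.eval t = 0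
    · exact Or.inr (h t ht)
    · exact Or.inl ht

lemma aeval_comp {K : Type} (z : K → ℂ[X]) (p : ℂ[X]) (P : MvPolynomial K ℂ) :
    (MvPolynomial.aeval z P).comp p = MvPolynomial.aeval (fun k => (z k).comp p) P := by
  have : ((Polynomial.compRingHom p).comp
      (MvPolynomial.aeval z : MvPolynomial K ℂ →ₐ[ℂ] _).toRingHom) =
      (MvPolynomial.aeval (fun k => (z k).comp p) : MvPolynomial K ℂ →ₐ[ℂ] _).toRingHom := by
    apply MvPolynomial.ringHom_ext
    · intro a
      simp
    · intro k
      simp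
  exact DFunLike.congr_fun this P

lemma eval_aeval {K : Type} (z : K → ℂ[X]) (t : ℂ) (P : MvPolynomial K ℂ) :
    (MvPolynomial.aeval z P).eval t = MvPolynomial.eval (fun k => (z k).eval t) P := by
  have : ((Polynomial.evalRingHom t).comp
      (MvPolynomial.aeval z : MvPolynomial K ℂ →ₐ[ℂ] _).toRingHom) =
      (MvPolynomial.eval (fun k => (z k).eval t) : MvPolynomial K ℂ →+* _) := by
    apply MvPolynomial.ringHom_ext
    · intro a
      simp
    · intro k
      simp
  exact DFunLike.congr_fun this P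

/-- division of `p - s` by two linear factors -/
lemma exists_E (p : ℂ[X]) (s r r' : ℂ) (hrr : r ≠ r') (h1 : p.eval r = s) (h2 : p.eval r' = s)
    (d1 : (derivative p).eval r ≠ 0) (d2 : (derivative p).eval r' ≠ 0) :
    ∃ E : ℂ[X], p - C s = (X - C r) * (X - C r') * E ∧ E.eval r ≠ 0 ∧ E.eval r' ≠ 0 := by
  have hcop : IsCoprime (X - C r : ℂ[X]) (X - C r') := by
    rw [coprime_iff]
    intro t ht
    rw [eval_sub, eval_X, eval_C] at ht ⊢
    rw [sub_eq_zero] at ht
    rw [ht]; exact sub_ne_zero.mpr hrr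
  obtain ⟨E, hE⟩ : (X - C r) * (X - C r') ∣ p - C s := by
    apply hcop.mul_dvd
    · rw [dvd_iff_isRoot, IsRoot.def, eval_sub, eval_C, h1, sub_self]
    · rw [dvd_iff_isRoot, IsRoot.def, eval_sub, eval_C, h2, sub_self]
  refine ⟨E, hE, ?_, ?_⟩
  · intro h
    apply d1
    have := congrArg (fun f => (derivative f).eval r) hE
    simp only [derivative_sub, derivative_C, sub_zero, derivative_mul, eval_add, eval_mul,
      eval_sub, eval_X, eval_C, derivative_X, sub_self, h, mul_zero, zero_mul, add_zero] at this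
    exact this
  · intro h
    apply d2
    have := congrArg (fun f => (derivative f).eval r') hE
    simp only [derivative_sub, derivative_C, sub_zero, derivative_mul, eval_add, eval_mul,
      eval_sub, eval_X, eval_C, derivative_X, sub_self, h, mul_zero, zero_mul, add_zero] at this
    exact this

end CORE

open CORE in
theorem stmt_CORE (hB : Stmt_BASE) (hC : Stmt_CYC) (hR : Stmt_RHO) (hH : Stmt_HERM) :
    Stmt_CORE := by
  classical
  intro J K I B _ _ _ _ _ _ D x y hx hy hx0 hy0
  obtain ⟨N0, z, Q, Q', s, μ, hN0, hμ, hz, hQ, hrel, hQQ, hQz, hzz⟩ := hB D x y hx hy hx0 hy0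
  -- the relation at zero
  have hrel0 : ∀ a, ∏ j with D.ja j = a, (y (Sum.inl j) * (Q j).eval 0) =
      ∏ j with D.ja j = a, x (Sum.inl j) := by
    intro a
    have h1 := congrArg (Polynomial.eval 0) (hrel a)
    rw [eval_prod, eval_prod] at h1
    rw [hx a]
    simp only [eval_mul, eval_C, eval_pow, eval_aeval] at h1
    rw [h1]
    apply Finset.prod_congr rfl
    intro b _
    congr 3
    funext k
    rw [← (hz k).2.2, coeff_zero_eq_eval_zero]
  have hQ0 : ∀ j, (Q j).eval 0 ≠ 0 := by
    intro j h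
    have h1 := hrel0 (D.ja j)
    have h2 : ∏ i with D.ja i = D.ja j, (y (Sum.inl i) * (Q i).eval 0) = 0 := by
      apply Finset.prod_eq_zero (i := j) (by simp)
      rw [h, mul_zero]
    rw [h2] at h1
    exact (Finset.prod_ne_zero_iff.mpr fun i _ => hx0 _) h1.symm
  obtain ⟨κ, hκ⟩ : ∃ κ : J → ℂ, κ = fun j => x (Sum.inl j) / (y (Sum.inl j) * (Q j).eval 0) :=
    ⟨_, rfl⟩
  have hyQ : ∀ j, y (Sum.inl j) * (Q j).eval 0 ≠ 0 := fun j => mul_ne_zero (hy0 _) (hQ0 j)
  obtain ⟨σ, c, hσ, hc0, hc⟩ := hC D.ja κ μ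
    (by intro j; rw [hκ]; exact div_ne_zero (hx0 _) (hyQ j))
    (by
      intro a
      rw [hκ]
      rw [Finset.prod_div_distrib, hrel0 a, div_self]
      exact Finset.prod_ne_zero_iff.mpr fun i _ => hx0 _)
    hμ
  obtain ⟨ρ, ρ', hinj, hρ, hρ', hρρ⟩ := hR c hc0
  obtain ⟨p, hpm, hpdeg, hp0, hpv, hpd⟩ := hH (Sum.elim ρ ρ') (Sum.elim s s) hinj (by
    rintro (j | j)
    · exact hρ j
    · exact hρ' j)
  have hp1 : ∀ j, p.eval (ρ j) = s j := fun j => hpv (Sum.inl j)
  have hp2 : ∀ j, p.eval (ρ' j) = s j := fun j => hpv (Sum.inr j)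
  have hne : ∀ j, ρ j ≠ ρ' j := by
    intro j h
    have := hinj (a₁ := Sum.inl j) (a₂ := Sum.inr j) h
    simp at this
  have hEx : ∀ j, ∃ E : ℂ[X], p - C (s j) = (X - C (ρ j)) * (X - C (ρ' j)) * E ∧
      E.eval (ρ j) ≠ 0 ∧ E.eval (ρ' j) ≠ 0 := fun j =>
    exists_E p (s j) (ρ j) (ρ' j) (hne j) (hp1 j) (hp2 j) (hpd (Sum.inl j)) (hpd (Sum.inr j))
  choose E hE hE1 hE2 using hEx
  obtain ⟨Dd, hDd⟩ : ∃ Dd : J → ℂ[X], Dd = fun j => (X - C (ρ j)) * (X - C (ρ' j)) := ⟨_, rfl⟩
  have hDm : ∀ j, (Dd j).Monic := by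
    intro j; rw [hDd]; exact (monic_X_sub_C _).mul (monic_X_sub_C _)
  have hDdeg : ∀ j, (Dd j).natDegree = 2 := by
    intro j
    rw [hDd]
    change ((X - C (ρ j)) * (X - C (ρ' j))).natDegree = 2
    rw [(monic_X_sub_C _).natDegree_mul (monic_X_sub_C _), natDegree_X_sub_C, natDegree_X_sub_C]
  have hD0 : ∀ j, (Dd j).eval 0 = c j := by
    intro j; rw [hDd]; simp [← hρρ j]
  have hDr : ∀ j t, (Dd j).eval t = 0 ↔ t = ρ j ∨ t = ρ' j := by
    intro j t
    rw [hDd]
    simp [sub_eq_zero]
  obtain ⟨T, hT⟩ : ∃ T : J → ℂ[X], T = fun j => C (y (Sum.inl j)) * (E j) ^ μ (D.ja j) *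
      ((Q' j).comp p) * (Dd (σ j)) ^ μ (D.ja j) := ⟨_, rfl⟩
  have key : ∀ j, T j * (Dd j) ^ μ (D.ja j) =
      C (y (Sum.inl j)) * (Q j).comp p * (Dd (σ j)) ^ μ (D.ja j) := by
    intro j
    have h1 : (Q j).comp p = (Dd j * E j) ^ μ (D.ja j) * (Q' j).comp p := by
      rw [(hQ j).2.2.1, mul_comp, pow_comp, sub_comp, X_comp, C_comp, hE j, hDd]
    rw [h1, hT]
    ring
  have hQcm : ∀ j, ((Q j).comp p).Monic := fun j => (hQ j).1.comp hpm hpdeg.ne'
  have hpow0 : ∀ j (n : ℕ), (Dd j) ^ n ≠ 0 := fun j n => ((hDm j).pow n).ne_zero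
  have hRHS : ∀ j, C (y (Sum.inl j)) * (Q j).comp p * (Dd (σ j)) ^ μ (D.ja j) ≠ 0 := by
    intro j
    exact mul_ne_zero (mul_ne_zero (C_ne_zero.mpr (hy0 _)) (hQcm j).ne_zero) (hpow0 _ _)
  have hT0 : ∀ j, T j ≠ 0 := by
    intro j h
    apply hRHS j
    rw [← key j, h, zero_mul]
  refine ⟨N0 * p.natDegree, Sum.elim T (fun k => (z k).comp p), Nat.mul_pos hN0 hpdeg, ?_, ?_, ?_⟩
  · rintro (j | k)
    · refine ⟨?_, ?_, ?_⟩
      · have h1 := congrArg natDegree (key j)
        rw [natDegree_mul (hT0 j) (hpow0 _ _), natDegree_mul (mul_ne_zero (C_ne_zero.mpr (hy0 _))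
          (hQcm j).ne_zero) (hpow0 _ _), natDegree_pow, natDegree_pow, hDdeg, hDdeg,
          natDegree_C_mul (hy0 _), natDegree_comp, (hQ j).2.1] at h1
        change (T j).natDegree = N0 * p.natDegree * D.w j
        have h2 := Nat.add_right_cancel h1
        rw [h2]; ring
      · have h1 := congrArg leadingCoeff (key j)
        rw [leadingCoeff_mul, leadingCoeff_mul, leadingCoeff_mul, leadingCoeff_C,
          ((hDm _).pow _).leadingCoeff, ((hDm _).pow _).leadingCoeff, (hQcm j).leadingCoeff,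
          mul_one, mul_one, mul_one] at h1
        exact h1
      · have h1 := congrArg (eval 0) (key j)
        rw [eval_mul, eval_mul, eval_mul, eval_C, eval_pow, eval_pow, hD0, hD0, eval_comp, hp0]
          at h1
        change (T j).coeff 0 = _
        rw [coeff_zero_eq_eval_zero]
        have h2 := hc j
        rw [hκ, div_pow] at h2
        have h3 : c j ^ μ (D.ja j) ≠ 0 := pow_ne_zero _ (hc0 j)
        apply mul_right_cancel₀ h3
        rw [h1]
        have h4 := hyQ j
        rw [div_eq_div_iff h3 h4] at h2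
        linear_combination h2
    · refine ⟨?_, ?_, ?_⟩
      · change ((z k).comp p).natDegree = N0 * p.natDegree * D.u k
        rw [natDegree_comp, (hz k).1]; ring
      · change ((z k).comp p).leadingCoeff = _
        rw [leadingCoeff_comp hpdeg.ne', hpm.leadingCoeff, one_pow, mul_one, (hz k).2.1]
      · change ((z k).comp p).coeff 0 = _
        rw [coeff_zero_eq_eval_zero, eval_comp, hp0, ← coeff_zero_eq_eval_zero, (hz k).2.2]
  · intro a
    change ∏ j with D.ja j = a, T j = ∏ b with D.ba b = a,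
      (MvPolynomial.aeval (fun k => (z k).comp p) (D.P b)) ^ D.m b
    have h1 : ∏ b with D.ba b = a, (MvPolynomial.aeval (fun k => (z k).comp p) (D.P b)) ^ D.m b =
        ∏ j with D.ja j = a, (C (y (Sum.inl j)) * (Q j).comp p) := by
      have h2 := congrArg (fun f => f.comp p) (hrel a)
      simp only [prod_comp, mul_comp, C_comp, pow_comp, aeval_comp] at h2
      exact h2.symm
    rw [h1]
    have h2 : (∏ j with D.ja j = a, T j) * ∏ j with D.ja j = a, (Dd j) ^ μ a =
        (∏ j with D.ja j = a, (C (y (Sum.inl j)) * (Q j).comp p)) *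
          ∏ j with D.ja j = a, (Dd j) ^ μ a := by
      have h3 : ∏ j with D.ja j = a, (Dd j) ^ μ a = ∏ j with D.ja j = a, (Dd (σ j)) ^ μ a := by
        symm
        apply Finset.prod_equiv σ
        · intro i
          simp only [Finset.mem_filter, Finset.mem_univ, true_and]
          rw [hσ]
        · intro i _
          rfl
      conv_rhs => rw [h3]
      rw [← Finset.prod_mul_distrib, ← Finset.prod_mul_distrib]
      apply Finset.prod_congr rfl
      intro j hj
      rw [Finset.mem_filter] at hj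
      have := key j
      rw [hj.2] at this
      exact this
    refine mul_right_cancel₀ ?_ h2
    exact Finset.prod_ne_zero_iff.mpr fun j _ => hpow0 _ _
  · -- roots
    have hroot : ∀ j t, (T j).eval t = 0 →
        (t ≠ ρ j ∧ t ≠ ρ' j ∧ (Q j).eval (p.eval t) = 0) ∨ (t = ρ (σ j) ∨ t = ρ' (σ j)) := by
      intro j t ht
      rw [hT] at ht
      simp only [eval_mul, eval_pow, eval_C, eval_comp] at ht
      have hQe : ∀ r, (Q j).eval r = (r - s j) ^ μ (D.ja j) * (Q' j).eval r := by
        intro r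
        conv_lhs => rw [(hQ j).2.2.1]
        simp
      rcases mul_eq_zero.mp ht with ht | ht
      · rcases mul_eq_zero.mp ht with ht | ht
        · rcases mul_eq_zero.mp ht with ht | ht
          · exact absurd ht (hy0 _)
          · left
            have ht' := pow_eq_zero_iff (hμ _).ne' |>.mp ht
            have h1 := congrArg (eval t) (hE j)
            rw [eval_mul, ht', mul_zero, eval_sub, eval_C] at h1
            refine ⟨?_, ?_, ?_⟩
            · rintro rfl; exact hE1 j ht'
            · rintro rfl; exact hE2 j ht'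
            · rw [hQe, h1, zero_pow (hμ _).ne', zero_mul]
        · left
          refine ⟨?_, ?_, ?_⟩
          · rintro rfl
            rw [hp1] at ht
            exact (hQ j).2.2.2 ht
          · rintro rfl
            rw [hp2] at ht
            exact (hQ j).2.2.2 ht
          · rw [hQe, ht, mul_zero]
      · right
        have ht' := pow_eq_zero_iff (hμ _).ne' |>.mp ht
        exact (hDr _ _).mp ht'
    have hB : ∀ i t, (t = ρ i ∨ t = ρ' i) → (Q i).eval (p.eval t) = 0 := by
      intro i t ht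
      have h1 : p.eval t = s i := by
        rcases ht with rfl | rfl
        · exact hp1 i
        · exact hp2 i
      rw [h1, (hQ i).2.2.1]
      simp [(hμ (D.ja i)).ne']
    have hQi : ∀ j t, (T j).eval t = 0 → ∃ i, (Q i).eval (p.eval t) = 0 := by
      intro j t ht
      rcases hroot j t ht with h | h
      · exact ⟨j, h.2.2⟩
      · exact ⟨_, hB _ _ h⟩
    have hQQ' : ∀ i j r, (Q i).eval r = 0 → (Q j).eval r = 0 → i = j := by
      intro i j r h1 h2
      by_contra hij
      exact (coprime_iff _ _).mp (hQQ i j hij) r h1 h2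
    have hρi : ∀ i j t, (t = ρ i ∨ t = ρ' i) → (t = ρ j ∨ t = ρ' j) → i = j := by
      intro i j t h1 h2
      exact hQQ' i j (p.eval t) (hB _ _ h1) (hB _ _ h2)
    rintro (j | k) (j' | k') hvv <;> rw [coprime_iff] <;> intro t h1 h2
    · have hjj : j ≠ j' := fun h => hvv (by rw [h])
      change (T j).eval t = 0 at h1
      change (T j').eval t = 0 at h2
      rcases hroot j t h1 with a1 | a1 <;> rcases hroot j' t h2 with a2 | a2
      · exact hjj (hQQ' _ _ _ a1.2.2 a2.2.2)
      · have := hQQ' _ _ _ a1.2.2 (hB _ _ a2)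
        rw [← this] at a2
        rcases a2 with a2 | a2
        · exact a1.1 a2
        · exact a1.2.1 a2
      · have := hQQ' _ _ _ a2.2.2 (hB _ _ a1)
        rw [← this] at a1
        rcases a1 with a1 | a1
        · exact a2.1 a1
        · exact a2.2.1 a1
      · exact hjj (σ.injective (hρi _ _ _ a1 a2))
    · obtain ⟨i, hi⟩ := hQi j t h1
      change ((z k').comp p).eval t = 0 at h2
      rw [eval_comp] at h2
      exact (coprime_iff _ _).mp (hQz i k') _ hi h2
    · obtain ⟨i, hi⟩ := hQi j' t h2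
      change ((z k).comp p).eval t = 0 at h1
      rw [eval_comp] at h1
      exact (coprime_iff _ _).mp (hQz i k) _ hi h1
    · have hkk : k ≠ k' := fun h => hvv (by rw [h])
      change ((z k).comp p).eval t = 0 at h1
      change ((z k').comp p).eval t = 0 at h2
      rw [eval_comp] at h1 h2
      exact (coprime_iff _ _).mp (hzz k k' hkk) _ h1 h2

end Pool.TVar.helper30
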